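import Mathlib

set_option autoImplicit false

namespace Pool.Agent.Results.MP_c09033_al.Counter

open Set Topology Filter Subgroup

universe u

def Semitop {G H : Type} [Group G] [Group H] [TopologicalSpace G] [TopologicalSpace H]
    (f : G →* H) : Prop :=
  Continuous f ∧ Function.Surjective f ∧ ∃ (E : Type u) (_ : Group E) (_ : TopologicalSpace E)
    (_ : IsTopologicalGroup E) (i : G →* E) (F : E →* H),
    IsEmbedding i ∧ i.range.Normal ∧ Continuous F ∧ IsOpenMap F ∧ F.comp i = f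

lemma zp {L : Type} [Group L] (t : L) (m n : ℕ) : zpowers (t ^ (m * n)) ≤ zpowers (t ^ m) :=
  zpowers_le.2 (pow_mul t m n ▸ pow_mem (mem_zpowers _) n)

@[reducible] def basis {L : Type} [Group L] (t : L) (h : ∀ g, ∃ m > 0, Commute (t ^ m) g) :
    GroupFilterBasis L where
  sets := {S | ∃ m > 0, S = zpowers (t ^ m)}
  nonempty := ⟨_, 1, one_pos, rfl⟩
  inter_sets := by
    rintro _ _ ⟨m, hm, rfl⟩ ⟨n, hn, rfl⟩
    exact ⟨_, ⟨m * n, Nat.mul_pos hm hn, rfl⟩, subset_inter (zp t m n) (mul_comm m n ▸ zp t n m)⟩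
  one' := by rintro _ ⟨m, -, rfl⟩; exact one_mem _
  mul' := by
    rintro _ ⟨m, hm, rfl⟩
    exact ⟨_, ⟨m, hm, rfl⟩, (coe_mul_coe _).subset⟩
  inv' := by rintro _ ⟨m, hm, rfl⟩; exact ⟨_, ⟨m, hm, rfl⟩, fun x hx => inv_mem hx⟩
  conj' := by
    rintro x _ ⟨m, hm, rfl⟩
    obtain ⟨n, hn, h⟩ := h x
    refine ⟨_, ⟨m * n, Nat.mul_pos hm hn, rfl⟩, fun y hy => ?_⟩
    obtain ⟨k, rfl⟩ := zp t n m (mul_comm m n ▸ hy)
    simpa [← (h.zpow_left k).eq] using zp t m n hy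

lemma mem_nhds {L : Type} [Group L] {t : L} (h : ∀ g, ∃ m > 0, Commute (t ^ m) g) {U : Set L} :
    U ∈ @nhds L (basis t h).topology 1 ↔ ∃ m > 0, (zpowers (t ^ m) : Set L) ⊆ U :=
  (basis t h).nhds_one_hasBasis.mem_iff.trans
    ⟨fun ⟨_, ⟨m, h1, h2⟩, h3⟩ => ⟨m, h1, h2 ▸ h3⟩, fun ⟨m, h1, h2⟩ => ⟨_, ⟨m, h1, rfl⟩, h2⟩⟩

@[ext] structure Hs {C : Type} [AddCommGroup C] (π : ℚ →+ C) where
  a : ℚ
  b : ℚ
  c : C

variable {C : Type} [AddCommGroup C] {π : ℚ →+ C}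

instance : Mul (Hs π) := ⟨fun x y => ⟨x.a + y.a, x.b + y.b, x.c + y.c + π (x.a * y.b)⟩⟩
instance : One (Hs π) := ⟨⟨0, 0, 0⟩⟩
instance : Inv (Hs π) := ⟨fun x => ⟨-x.a, -x.b, -x.c + π (x.a * x.b)⟩⟩

lemma mul_def (x y : Hs π) : x * y = ⟨x.a + y.a, x.b + y.b, x.c + y.c + π (x.a * y.b)⟩ := rfl
lemma one_def : (1 : Hs π) = ⟨0, 0, 0⟩ := rfl

instance : Group (Hs π) := Group.ofLeftAxioms
  (fun x y z => by ext <;> simp only [mul_def, mul_add, add_mul, map_add] <;> abel)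
  (fun x => by ext <;> simp [mul_def, one_def])
  (fun x => by ext <;> simp [mul_def, one_def, show x⁻¹ = ⟨-x.a, -x.b, -x.c + π (x.a * x.b)⟩ from rfl])

lemma pow_ab (x : Hs π) (n : ℕ) : (x ^ n).a = n * x.a ∧ (x ^ n).b = n * x.b ∧
    (x.a * x.b = 0 → (x ^ n).c = n • x.c) := by
  induction n with
  | zero => simp [one_def]
  | succ n ih =>
    rw [pow_succ, mul_def, ih.1, ih.2.1]
    exact ⟨by push_cast; ring, by push_cast; ring, fun h => by simp [ih.2.2 h, mul_assoc, h, succ_nsmul]⟩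

def π₀ : ℚ →+ AddCircle (1 : ℚ) := QuotientAddGroup.mk' _

def G : Type := Hs (AddMonoidHom.id ℚ)
def K : Type := Hs π₀
def H : Type := Hs π₀
def E : Type := Hs π₀ × Hs π₀
instance : Group G := inferInstanceAs (Group (Hs _))
instance : Group K := inferInstanceAs (Group (Hs _))
instance : Group H := inferInstanceAs (Group (Hs _))
instance : Group E := inferInstanceAs (Group (Hs _ × Hs _))

def t : Hs π₀ := ⟨1, 0, 0⟩

lemma t_pow (m : ℕ) : t ^ m = ⟨m, 0, 0⟩ := by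
  obtain ⟨h1, h2, h3⟩ := pow_ab t m
  exact Hs.ext (h1.trans (mul_one _)) (h2.trans (mul_zero _)) (by rw [h3 (by simp [t])]; simp [t])

lemma comm (m : ℕ) (g : Hs π₀) : Commute (t ^ m) g ↔ π₀ (m * g.b) = 0 := by
  simp [Commute, SemiconjBy, t_pow, mul_def, add_comm]

lemma comm' (g : Hs π₀) : Commute (t ^ g.b.den) g := (comm _ g).2 <| by
  rw [Rat.den_mul_eq_num]
  exact (QuotientAddGroup.eq_zero_iff _).2 ⟨g.b.num, by simp⟩

lemma hH (g : H) : ∃ m > 0, Commute ((show H from t) ^ m) g := ⟨_, g.b.den_pos, comm' g⟩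

lemma hE (g : E) : ∃ m > 0, Commute ((show E from (t, t)) ^ m) g :=
  ⟨_, Nat.mul_pos g.1.b.den_pos g.2.b.den_pos, Prod.ext
    (show Commute (t ^ _) g.1 from pow_mul t _ _ ▸ (comm' g.1).pow_left _)
    (show Commute (t ^ _) g.2 from pow_mul' t _ _ ▸ (comm' g.2).pow_left _)⟩

instance : TopologicalSpace G := ⊥
instance : TopologicalSpace K := ⊥
instance : DiscreteTopology G := ⟨rfl⟩
instance : DiscreteTopology K := ⟨rfl⟩
instance : TopologicalSpace H := (basis _ hH).topology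
instance : TopologicalSpace E := (basis _ hE).topology
instance : IsTopologicalGroup H := (basis _ hH).isTopologicalGroup
instance : IsTopologicalGroup E := (basis _ hE).isTopologicalGroup

def f₁ : G →* K := MonoidHom.mk' (fun x => ⟨x.a, x.b, π₀ x.c⟩) fun _ _ =>
  Hs.ext rfl rfl ((map_add π₀ _ _).trans (congrArg (· + _) (map_add π₀ _ _)))
def f₂ : K →* H := MonoidHom.id (Hs π₀)

theorem result : ∃ (G K H : Type) (_ : Group G) (_ : Group K) (_ : Group H)
    (_ : TopologicalSpace G) (_ : TopologicalSpace K) (_ : TopologicalSpace H)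
    (_ : IsTopologicalGroup G) (_ : IsTopologicalGroup K) (_ : IsTopologicalGroup H)
    (f₁ : G →* K) (f₂ : K →* H), T2Space G ∧ T2Space K ∧ T2Space H ∧
    Continuous f₁ ∧ IsOpenMap f₁ ∧ Function.Surjective f₁ ∧
    Function.Bijective f₂ ∧ Semitop.{0} f₂ ∧ ¬ Semitop.{u} (f₂.comp f₁) := by
  let i : K →* E := MonoidHom.inl (Hs π₀) (Hs π₀)
  let F : E →* H := MonoidHom.fst (Hs π₀) (Hs π₀)
  refine ⟨G, K, H, inferInstance, inferInstance, inferInstance, inferInstance, inferInstance,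
    inferInstance, inferInstance, inferInstance, inferInstance, f₁, f₂, inferInstance,
    inferInstance, ?_, continuous_of_discreteTopology, fun _ _ => isOpen_discrete _,
    fun x => ?_, Function.bijective_id, ⟨continuous_of_discreteTopology, Function.surjective_id, E,
      inferInstance, inferInstance, inferInstance, i, F, ⟨?_, fun _ _ h => congrArg Prod.fst h⟩,
      ⟨?_⟩, continuous_of_continuousAt_one F fun U hU => ?_,
      IsTopologicalGroup.isOpenMap_iff_nhds_one.2 fun U hU => ?_, rfl⟩, ?_⟩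
  · refine IsTopologicalGroup.t2Space_of_one_sep fun x hx => ?_
    obtain ⟨m, hm⟩ := exists_nat_gt |x.a|
    refine ⟨_, (mem_nhds hH).2 ⟨m, by exact_mod_cast (abs_nonneg _).trans_lt hm, subset_rfl⟩, ?_⟩
    rintro ⟨k, rfl⟩
    let A : H →* Multiplicative ℚ := MonoidHom.mk' (fun x => x.a) fun _ _ => rfl
    have h1 : Multiplicative.toAdd (A (((show H from t) ^ m) ^ k)) = k * m := by
      rw [map_zpow, map_pow]; simp; exact Or.inl (mul_one _)
    have h2 : |(k : ℚ) * m| < m := h1 ▸ hm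
    rw [abs_mul, Nat.abs_cast, mul_lt_iff_lt_one_left ((abs_nonneg _).trans_lt hm)] at h2
    obtain rfl : k = 0 := Int.abs_lt_one_iff.1 (by exact_mod_cast h2)
    exact hx (zpow_zero _)
  · obtain ⟨c, hc⟩ := QuotientAddGroup.mk'_surjective _ x.c
    exact ⟨⟨x.a, x.b, c⟩, Hs.ext rfl rfl hc⟩
  · refine IsTopologicalGroup.isInducing_iff_nhds_one.2 (le_antisymm
      (continuous_of_discreteTopology.tendsto' 1 1 (map_one i)).le_comap fun U hU => ?_)
    refine ⟨_, (mem_nhds hE).2 ⟨1, one_pos, subset_rfl⟩, fun x ⟨k, hk⟩ => ?_⟩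
    obtain rfl : x = 1 := (congrArg Prod.fst hk).symm.trans (congrArg Prod.snd hk)
    exact mem_of_mem_nhds hU
  · rintro _ ⟨x, rfl⟩ g
    exact ⟨(g.1 * (show Hs π₀ from x) * g.1⁻¹ : Hs π₀), Prod.ext rfl (by
      show 1 = g.2 * 1 * g.2⁻¹; simp)⟩
  · obtain ⟨m, h1, h2⟩ := (mem_nhds hH).1 (map_one F ▸ hU)
    exact (mem_nhds hE).2 ⟨m, h1, fun x ⟨k, hk⟩ => h2 ⟨k, congrArg Prod.fst hk⟩⟩
  · obtain ⟨m, h1, h2⟩ := (mem_nhds hE).1 hU
    exact (mem_nhds hH).2 ⟨m, h1, fun x ⟨k, hk⟩ => hk ▸ h2 ⟨k, rfl⟩⟩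
  · rintro ⟨-, -, E, _, _, _, i, F, h1, h2, -, h3, h4⟩
    let y : ℚ → G := fun b => ⟨0, b, 0⟩
    obtain ⟨O, h5, h6⟩ := h1.isInducing.isOpen_iff.1 (isOpen_discrete {y 1})
    have h7 : (fun x => x * i (y 1) * x⁻¹) ⁻¹' O ∈ 𝓝 (1 : E) :=
      (h5.preimage (by fun_prop)).mem_nhds (by simpa using h6.ge rfl)
    obtain ⟨m, h8, h9⟩ := (mem_nhds hH).1 (map_one F ▸ h3.image_mem_nhds h7)
    obtain ⟨x, h10, h11⟩ := h9 (mem_zpowers _)
    obtain ⟨z, hz⟩ := h2.conj_mem _ ⟨y (1 / (2 * m : ℕ)), rfl⟩ x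
    have h12 : y (1 / (2 * m : ℕ)) ^ (2 * m) = y 1 := by
      obtain ⟨h1, h2, h3⟩ := pow_ab (y (1 / (2 * m : ℕ))) (2 * m)
      exact Hs.ext (h1.trans (mul_zero _)) (h2.trans (mul_one_div_cancel (by positivity)))
        ((h3 (zero_mul _)).trans (smul_zero _))
    have h13 : z ^ (2 * m) = y 1 := h6.le (by
      rwa [mem_preimage, map_pow, hz, conj_pow, ← map_pow, h12])
    obtain ⟨h14, h15, h16⟩ := pow_ab z (2 * m)
    rw [show (show Hs _ from z) ^ (2 * m) = y 1 from h13] at h14 h15 h16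
    have h17 : ((2 * m : ℕ) : ℚ) ≠ 0 := by positivity
    have h18 : z.a = 0 := (mul_eq_zero.1 h14.symm).resolve_left h17
    have h19 : z = y (1 / (2 * m : ℕ)) := Hs.ext h18 (eq_one_div_of_mul_eq_one_right h15.symm)
      ((mul_eq_zero.1 ((nsmul_eq_mul _ _).symm.trans (h16 (by simp [h18])).symm)).resolve_left h17)
    have h20 := congrArg F (eq_mul_inv_iff_mul_eq.1 (h19 ▸ hz))
    rw [map_mul, map_mul, h11, show F (i _) = f₂ (f₁ _) from DFunLike.congr_fun h4 _] at h20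
    obtain ⟨k, hk⟩ := (QuotientAddGroup.eq_zero_iff _).1 ((comm m _).1 h20.symm)
    have h21 : (k : ℚ) * 1 = m * (1 / (2 * m : ℕ)) := (zsmul_eq_mul _ _).symm.trans hk
    have h22 : (2 * k : ℚ) = 1 := by
      push_cast at h21
      field_simp at h21
      linarith
    have : 2 * k = 1 := by exact_mod_cast h22
    omega

end Pool.Agent.Results.MP_c09033_al.Counter
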